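import Mathlib
import Pool.Agent.N740.HK.Levy

/-!
# A law of large numbers with error `N ^ (3/4)` for adapted events
-/

set_option autoImplicit false
set_option linter.unusedSectionVars false

open MeasureTheory Filter Set
open scoped ENNReal Topology NNReal

namespace Pool.Agent.N732.CG

open Pool.Agent.R528.RM Pool.Agent.N740.HK

variable {Ω : Type} {m0 : MeasurableSpace Ω} {μ : Measure Ω} [IsProbabilityMeasure μ]
  {ℱ : Filtration ℕ m0} {A : ℕ → Set Ω}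

theorem lln (hA : ∀ n, MeasurableSet[ℱ n] (A n)) :
    ∀ᵐ ω ∂μ, Tendsto (fun N : ℕ => (∑ n ∈ Finset.range N, (J1 A (n + 1) ω - dens μ ℱ A n ω)) /
      ((N : ℝ) + 1) ^ (3 / 4 : ℝ)) atTop (𝓝 0) := by
  set c : ℕ → Ω → ℝ := fun n _ => ((n : ℝ) + 1) ^ (-(3 / 4) : ℝ) with hc
  have hcm : ∀ n, StronglyMeasurable[ℱ n] (c n) := fun n => @stronglyMeasurable_const _ _ (ℱ n) _ _
  have hc0 : ∀ n ω, 0 ≤ c n ω := fun n ω => by simp only [hc]; positivity
  have hcb : ∀ n ω, |c n ω| ≤ 1 := fun n ω => by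
    rw [abs_of_nonneg (hc0 n ω)]
    simp only [hc]
    exact Real.rpow_le_one_of_one_le_of_nonpos (by
      have : (0 : ℝ) ≤ n := Nat.cast_nonneg n
      linarith) (by norm_num)
  have hcs : ∀ (n : ℕ) (ω : Ω), c n ω ^ 2 = ((n : ℝ) + 1) ^ (-(3 / 2) : ℝ) := fun n ω => by
    simp only [hc]
    rw [← Real.rpow_natCast, ← Real.rpow_mul (by positivity)]
    norm_num
  obtain ⟨K, hK0, hK⟩ : ∃ K : ℝ≥0, (1 : ℝ) ≤ K ∧ ∀ N : ℕ, ∑ n ∈ Finset.range N, ((n : ℝ) + 1) ^ (-(3 / 2) : ℝ) ≤ (K : ℝ) - 1 := by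
    have hs : Summable (fun n : ℕ => ((n : ℝ) + 1) ^ (-(3 / 2) : ℝ)) := by
      have h1 : Summable (fun n : ℕ => (n : ℝ) ^ (-(3 / 2) : ℝ)) := Real.summable_nat_rpow.2 (by norm_num)
      have h2 := (summable_nat_add_iff 1).2 h1
      refine h2.congr fun n => ?_
      push_cast
      rfl
    refine ⟨⟨1 + ∑' n : ℕ, ((n : ℝ) + 1) ^ (-(3 / 2) : ℝ), ?_⟩, ?_, ?_⟩
    · have : 0 ≤ ∑' n : ℕ, ((n : ℝ) + 1) ^ (-(3 / 2) : ℝ) := tsum_nonneg fun n => by positivity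
      linarith
    · have : 0 ≤ ∑' n : ℕ, ((n : ℝ) + 1) ^ (-(3 / 2) : ℝ) := tsum_nonneg fun n => by positivity
      show (1 : ℝ) ≤ 1 + ∑' n : ℕ, ((n : ℝ) + 1) ^ (-(3 / 2) : ℝ)
      linarith
    · intro N
      show _ ≤ (1 + ∑' n : ℕ, ((n : ℝ) + 1) ^ (-(3 / 2) : ℝ)) - 1
      have := hs.sum_le_tsum (Finset.range N) (fun n _ => by positivity)
      linarith
  have hsum : ∀ N ω, ∑ n ∈ Finset.range N, c n ω ^ 2 * DD' μ ℱ A n ω ≤ (K : ℝ) - 1 := by
    intro N ω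
    refine le_trans (Finset.sum_le_sum fun n _ => ?_) (hK N)
    rw [hcs n ω]
    exact mul_le_of_le_one_right (by positivity) (DD'_bd n ω).2
  have hb : ∀ N, eLpNorm (ZZ μ ℱ A c N) 1 μ ≤ (K : ℝ≥0∞) := by
    intro N
    have hZi : Integrable (ZZ μ ℱ A c N) μ := intb ((ZZ_meas hA hcm N).mono (ℱ.le _)) (ZZ_abs hcb N)
    rw [eLpNorm_one_eq_lintegral_enorm, ← ofReal_integral_norm_eq_lintegral_enorm hZi]
    rw [ENNReal.ofReal_le_coe]
    have j0 : Integrable (fun ω => ZZ μ ℱ A c N ω ^ 2) μ := intb (((ZZ_meas hA hcm N).mono (ℱ.le _)).pow 2) (c := (N : ℝ) ^ 2) fun ω => by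
      rw [abs_pow]; exact pow_le_pow_left₀ (abs_nonneg _) (ZZ_abs hcb N ω) 2
    calc ∫ ω, ‖ZZ μ ℱ A c N ω‖ ∂μ ≤ ∫ ω, (1 + ZZ μ ℱ A c N ω ^ 2) ∂μ := by
          apply integral_mono hZi.norm ((integrable_const _).add j0)
          intro ω
          show ‖ZZ μ ℱ A c N ω‖ ≤ 1 + ZZ μ ℱ A c N ω ^ 2
          rw [Real.norm_eq_abs, ← sq_abs (ZZ μ ℱ A c N ω)]
          nlinarith [abs_nonneg (ZZ μ ℱ A c N ω), sq_nonneg (|ZZ μ ℱ A c N ω| - 1)]
      _ = 1 + ∫ ω, ZZ μ ℱ A c N ω ^ 2 ∂μ := by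
          rw [integral_add (integrable_const _) j0, integral_const, probReal_univ, one_smul]
      _ ≤ 1 + ∫ ω, ∑ n ∈ Finset.range N, c n ω ^ 2 * DD' μ ℱ A n ω ∂μ := by linarith [ZZ_sq (μ := μ) hA hcm hcb N]
      _ ≤ 1 + ∫ _, ((K : ℝ) - 1) ∂μ := by
          have hSi : Integrable (fun ω => ∑ n ∈ Finset.range N, c n ω ^ 2 * DD' μ ℱ A n ω) μ := by
            refine intb (c := (K : ℝ) - 1) (Finset.stronglyMeasurable_fun_sum _ fun n _ => (((hcm n).mono (ℱ.le _)).pow 2).mul ((DD'_meas n).mono (ℱ.le _))) fun ω => ?_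
            rw [abs_of_nonneg (Finset.sum_nonneg fun n _ => mul_nonneg (sq_nonneg _) (DD'_bd n ω).1)]
            exact hsum N ω
          have := integral_mono hSi (integrable_const ((K : ℝ) - 1)) (fun ω => hsum N ω)
          linarith
      _ = (K : ℝ≥0) := by
          rw [integral_const, probReal_univ, one_smul]
          ring
  have h1 := (ZZ_mart (μ := μ) hA hcm hcb).submartingale.ae_tendsto_limitProcess hb
  filter_upwards [h1, DD'_ae (μ := μ) hA] with ω hω hDd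
  set b : ℕ → ℝ := fun n => ((n : ℝ) + 1) ^ (3 / 4 : ℝ) with hb'
  have hbmono : Monotone b := fun m n hmn => by
    simp only [hb']
    have : (m : ℝ) ≤ n := by exact_mod_cast hmn
    exact Real.rpow_le_rpow (by positivity) (by linarith) (by norm_num)
  have hbt : Tendsto b atTop atTop :=
    (tendsto_rpow_atTop (by norm_num)).comp (tendsto_atTop_add_const_right _ _ tendsto_natCast_atTop_atTop)
  have hk := kron hbmono hbt hω
  refine hk.congr fun N => ?_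
  simp only [hb']
  congr 1
  refine Finset.sum_congr rfl fun n _ => ?_
  rw [ZZ_succ, ← hDd n]
  simp only [hc]
  have h0 : (0 : ℝ) < (n : ℝ) + 1 := by positivity
  rw [add_sub_cancel_left, ← mul_assoc, ← Real.rpow_add h0]
  norm_num

end Pool.Agent.N732.CG
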