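import Mathlib
import Pool.Agent.N740.HK.Levy
import Pool.Agent.N909.TF.Tools

/-!
# Tuples in sequential random models with growing sieving moduli
-/

set_option autoImplicit false
set_option linter.unusedSectionVars false

open MeasureTheory Filter Set
open scoped ENNReal Topology

namespace Pool.Agent.N732.CG

open Pool.Agent.R528.RM Pool.Agent.N740.HK

variable {Ω : Type} {m0 : MeasurableSpace Ω} {μ : Measure Ω} [IsProbabilityMeasure μ]
  {ℱ : Filtration ℕ m0} {A : ℕ → Set Ω}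

open Classical in
/-- at least `X ^ (1 - ε)` numbers below `X` have the property -/
def LC (P : ℕ → Prop) : Prop := ∀ ε : ℝ, 0 < ε → ∀ᶠ X : ℕ in atTop,
  (X : ℝ) ^ (1 - ε) ≤ (((Finset.range X).filter P).card : ℝ)

open Classical in
lemma LC_of_small {P : ℕ → Prop} (h : ∀ ε : ℝ, 0 < ε → ε < 1 → ∀ᶠ X : ℕ in atTop,
    (X : ℝ) ^ (1 - ε) ≤ (((Finset.range X).filter P).card : ℝ)) : LC P := by
  intro ε hε
  have h1 := h (min ε (1 / 2)) (by positivity) (lt_of_le_of_lt (min_le_right _ _) (by norm_num))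
  filter_upwards [h1, eventually_ge_atTop 1] with X hX hX1
  refine le_trans ?_ hX
  apply Real.rpow_le_rpow_of_exponent_le (by exact_mod_cast hX1)
  linarith [min_le_left ε (1 / 2 : ℝ)]

lemma LC.mono {P P' : ℕ → Prop} (h : LC P) (hP : ∀ᶠ x in atTop, P x → P' x) : LC P' := by
  classical
  obtain ⟨x0, hx0⟩ := eventually_atTop.1 hP
  refine LC_of_small fun ε hε hε1 => ?_
  have h1 := h (ε / 2) (by positivity)
  have h2 : ∀ᶠ X : ℕ in atTop, (X : ℝ) ^ (1 - ε) + x0 ≤ (X : ℝ) ^ (1 - ε / 2) := by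
    have h3 : Tendsto (fun X : ℕ => (X : ℝ) ^ (ε / 2)) atTop atTop :=
      (tendsto_rpow_atTop (by positivity)).comp tendsto_natCast_atTop_atTop
    filter_upwards [h3.eventually_ge_atTop ((x0 : ℝ) + 1), eventually_ge_atTop 1] with X hX hX1
    have hX0 : (0 : ℝ) < X := by exact_mod_cast hX1
    have hX1' : (1 : ℝ) ≤ X := by exact_mod_cast hX1
    have e1 : (X : ℝ) ^ (1 - ε / 2) = (X : ℝ) ^ (1 - ε) * (X : ℝ) ^ (ε / 2) := by
      rw [← Real.rpow_add hX0]; congr 1; ring
    have e2 : 1 ≤ (X : ℝ) ^ (1 - ε) := Real.one_le_rpow hX1' (by linarith)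
    rw [e1]
    have : (0 : ℝ) ≤ x0 := Nat.cast_nonneg _
    nlinarith
  filter_upwards [h1, h2] with X hX1 hX2
  have h3 : ((Finset.range X).filter P).card ≤ ((Finset.range X).filter P').card + x0 := by
    have h4 : (Finset.range X).filter P ⊆ (Finset.range X).filter P' ∪ Finset.range x0 := by
      intro x hx
      rw [Finset.mem_filter] at hx
      rw [Finset.mem_union, Finset.mem_filter]
      by_cases hxx : x0 ≤ x
      · exact Or.inl ⟨hx.1, hx0 x hxx hx.2⟩
      · exact Or.inr (Finset.mem_range.2 (by omega))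
    have h5 := (Finset.card_le_card h4).trans (Finset.card_union_le _ _)
    rwa [Finset.card_range] at h5
  have h4 : (((Finset.range X).filter P).card : ℝ) ≤ ((Finset.range X).filter P').card + x0 := by exact_mod_cast h3
  have h5 : (X : ℝ) ^ (1 - ε) ≤ (((Finset.range X).filter P').card : ℝ) := by linarith
  convert h5 using 2

lemma growth {c ε x0 : ℝ} (hc : 0 < c) (hε : 0 < ε) (hε1 : ε < 1) (h : ℕ) :
    ∀ᶠ X : ℕ in atTop, (X : ℝ) ^ (1 - ε) ≤ c / Real.log ((X + h : ℕ) : ℝ) * ((X : ℝ) ^ (1 - ε / 2) - x0) := by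
  have h1 := (isLittleO_log_rpow_atTop (show (0 : ℝ) < ε / 2 by positivity)).bound (show (0 : ℝ) < c / 4 by positivity)
  have h1' := tendsto_natCast_atTop_atTop.eventually h1
  have h2 : Tendsto (fun X : ℕ => (X : ℝ) ^ (1 - ε / 2)) atTop atTop :=
    (tendsto_rpow_atTop (by linarith)).comp tendsto_natCast_atTop_atTop
  filter_upwards [h1', h2.eventually_ge_atTop (2 * x0), eventually_ge_atTop (h + 2)] with X hX1 hX2 hX3
  have hX0 : (0 : ℝ) < X := by exact_mod_cast (by omega : 0 < X)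
  have hX1' : (1 : ℝ) < X := by exact_mod_cast (by omega : 1 < X)
  have hL : 0 < Real.log X := Real.log_pos hX1'
  have hL2 : 0 < Real.log ((X + h : ℕ) : ℝ) := Real.log_pos (by exact_mod_cast (by omega : 1 < X + h))
  have hL3 : Real.log ((X + h : ℕ) : ℝ) ≤ 2 * Real.log X := by
    have e1 : 2 * Real.log X = Real.log ((X * X : ℕ) : ℝ) := by
      push_cast
      rw [Real.log_mul hX0.ne' hX0.ne']; ring
    rw [e1]
    apply Real.log_le_log (by exact_mod_cast (by omega : 0 < X + h))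
    have : X + h ≤ X * X := by nlinarith
    exact_mod_cast this
  rw [Real.norm_eq_abs, Real.norm_eq_abs, abs_of_pos hL, abs_of_nonneg (Real.rpow_nonneg hX0.le _)] at hX1
  have e1 : (X : ℝ) ^ (1 - ε / 2) = (X : ℝ) ^ (1 - ε) * (X : ℝ) ^ (ε / 2) := by
    rw [← Real.rpow_add hX0]; congr 1; ring
  have e0 : 0 < (X : ℝ) ^ (1 - ε) := Real.rpow_pos_of_pos hX0 _
  rw [div_mul_eq_mul_div, le_div_iff₀ hL2]
  calc (X : ℝ) ^ (1 - ε) * Real.log ((X + h : ℕ) : ℝ) ≤ (X : ℝ) ^ (1 - ε) * (2 * Real.log X) :=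
        mul_le_mul_of_nonneg_left hL3 e0.le
    _ ≤ (X : ℝ) ^ (1 - ε) * (2 * (c / 4 * (X : ℝ) ^ (ε / 2))) := by
        apply mul_le_mul_of_nonneg_left _ e0.le
        linarith
    _ = c * ((X : ℝ) ^ (1 - ε / 2) / 2) := by rw [e1]; ring
    _ ≤ c * ((X : ℝ) ^ (1 - ε / 2) - x0) := by
        apply mul_le_mul_of_nonneg_left _ hc.le
        linarith

open Classical in
/-- one more element of the tuple -/
lemma step (hA : ∀ n, MeasurableSet[ℱ n] (A n)) (h : ℕ) (hh : 1 ≤ h) (B : ℕ → Set Ω)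
    (hB : ∀ x, MeasurableSet[ℱ (x + h - 1)] (B x))
    (hLC : ∀ᵐ ω ∂μ, LC (fun x => ω ∈ B x))
    (hd : ∀ᵐ ω ∂μ, ∃ c : ℝ, 0 < c ∧ ∀ᶠ x : ℕ in atTop, ω ∈ B x →
      c / Real.log ((x + h : ℕ) : ℝ) ≤ dens μ ℱ A (x + h - 1) ω) :
    ∀ᵐ ω ∂μ, LC (fun x => ω ∈ B x ∧ ω ∈ A (x + h)) := by
  set w : ℕ → Ω → ℝ := fun n ω => if h ≤ n + 1 ∧ ω ∈ B (n + 1 - h) then 1 else 0 with hwdef
  have hw : ∀ n, StronglyMeasurable[ℱ n] (w n) := by
    intro n
    by_cases hn : h ≤ n + 1
    · have e : w n = (B (n + 1 - h)).indicator (fun _ => (1 : ℝ)) := by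
        funext ω
        simp only [hwdef]
        by_cases hb : ω ∈ B (n + 1 - h)
        · rw [if_pos ⟨hn, hb⟩, indicator_of_mem hb]
        · rw [if_neg (fun hc => hb hc.2), indicator_of_notMem hb]
      rw [e]
      have h1 := hB (n + 1 - h)
      rw [show n + 1 - h + h - 1 = n by omega] at h1
      exact (@stronglyMeasurable_const _ _ (ℱ n) _ _).indicator h1
    · have e : w n = fun _ => 0 := by
        funext ω
        simp only [hwdef]
        rw [if_neg (fun hc => hn hc.1)]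
      rw [e]
      exact @stronglyMeasurable_const _ _ (ℱ n) _ _
  have h01 : ∀ n ω, 0 ≤ w n ω ∧ w n ω ≤ 1 := by
    intro n ω
    simp only [hwdef]
    split_ifs <;> norm_num
  filter_upwards [levy (μ := μ) hA w hw h01, hLC, hd, DD'_ae (μ := μ) hA] with ω hlv hLC' hd' hDD
  obtain ⟨c, hc, hd''⟩ := hd'
  obtain ⟨x0, hx0⟩ := eventually_atTop.1 hd''
  have hdn : ∀ n, 0 ≤ dens μ ℱ A n ω := fun n => by
    rw [← hDD n]; exact (DD'_bd n ω).1
  -- shifting the sums
  have hshift : ∀ (g : ℕ → ℝ) (X : ℕ), ∑ n ∈ Finset.range (h - 1 + X), w n ω * g n =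
      ∑ x ∈ Finset.range X, (if ω ∈ B x then g (x + h - 1) else 0) := by
    intro g X
    rw [Finset.sum_range_add]
    have e1 : ∑ n ∈ Finset.range (h - 1), w n ω * g n = 0 := by
      apply Finset.sum_eq_zero
      intro n hn
      have := Finset.mem_range.1 hn
      simp only [hwdef]
      rw [if_neg (fun hc => by omega), zero_mul]
    rw [e1, zero_add]
    apply Finset.sum_congr rfl
    intro x _
    simp only [hwdef]
    rw [show h - 1 + x + 1 - h = x by omega, show h - 1 + x = x + h - 1 by omega]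
    by_cases hb : ω ∈ B x
    · rw [if_pos ⟨by omega, hb⟩, if_pos hb, one_mul]
    · rw [if_neg (fun hc => hb hc.2), if_neg hb, zero_mul]
  have hJ : ∀ X : ℕ, ∑ n ∈ Finset.range (h - 1 + X), w n ω * J1 A (n + 1) ω =
      (((Finset.range X).filter (fun x => ω ∈ B x ∧ ω ∈ A (x + h))).card : ℝ) := by
    intro X
    rw [hshift (fun n => J1 A (n + 1) ω), Finset.card_filter]
    push_cast
    apply Finset.sum_congr rfl
    intro x _
    rw [show x + h - 1 + 1 = x + h by omega]
    unfold J1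
    by_cases hb : ω ∈ B x
    · by_cases ha : ω ∈ A (x + h)
      · rw [if_pos hb, if_pos ⟨hb, ha⟩, indicator_of_mem ha]
      · rw [if_pos hb, if_neg (fun hc => ha hc.2), indicator_of_notMem ha]
    · rw [if_neg hb, if_neg (fun hc => hb hc.1)]
  have hlow : ∀ X : ℕ, 2 ≤ X + h → c / Real.log ((X + h : ℕ) : ℝ) *
      ((((Finset.range X).filter (fun x => ω ∈ B x)).card : ℝ) - x0 - 2) ≤
      ∑ n ∈ Finset.range (h - 1 + X), w n ω * dens μ ℱ A n ω := by
    intro X hX
    have hL : 0 < Real.log ((X + h : ℕ) : ℝ) := Real.log_pos (by exact_mod_cast (by omega : 1 < X + h))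
    rw [hshift (fun n => dens μ ℱ A n ω)]
    have h1 : ∑ x ∈ (Finset.range X).filter (fun x => ω ∈ B x ∧ x0 + 2 ≤ x), c / Real.log ((X + h : ℕ) : ℝ) ≤
        ∑ x ∈ Finset.range X, (if ω ∈ B x then dens μ ℱ A (x + h - 1) ω else 0) := by
      rw [Finset.sum_filter]
      apply Finset.sum_le_sum
      intro x hx
      have hxX := Finset.mem_range.1 hx
      by_cases hb : ω ∈ B x
      · rw [if_pos hb]
        by_cases hxx : x0 + 2 ≤ x
        · rw [if_pos ⟨hb, hxx⟩]
          refine le_trans ?_ (hx0 x (by omega) hb)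
          apply div_le_div_of_nonneg_left hc.le
          · exact Real.log_pos (by exact_mod_cast (by omega : 1 < x + h))
          · apply Real.log_le_log
            · exact_mod_cast (by omega : 0 < x + h)
            · exact_mod_cast (by omega : x + h ≤ X + h)
        · rw [if_neg (fun hc => hxx hc.2)]
          exact hdn _
      · rw [if_neg hb, if_neg (fun hc => hb hc.1)]
    refine le_trans ?_ h1
    rw [Finset.sum_const, nsmul_eq_mul, mul_comm]
    apply mul_le_mul_of_nonneg_right _ (by positivity)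
    have h2 : ((Finset.range X).filter (fun x => ω ∈ B x)).card ≤
        ((Finset.range X).filter (fun x => ω ∈ B x ∧ x0 + 2 ≤ x)).card + (x0 + 2) := by
      have h4 : (Finset.range X).filter (fun x => ω ∈ B x) ⊆
          (Finset.range X).filter (fun x => ω ∈ B x ∧ x0 + 2 ≤ x) ∪ Finset.range (x0 + 2) := by
        intro x hx
        rw [Finset.mem_filter] at hx
        rw [Finset.mem_union, Finset.mem_filter]
        by_cases hxx : x0 + 2 ≤ x
        · exact Or.inl ⟨hx.1, hx.2, hxx⟩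
        · exact Or.inr (Finset.mem_range.2 (by omega))
      have h5 := (Finset.card_le_card h4).trans (Finset.card_union_le _ _)
      rwa [Finset.card_range] at h5
    have h3 : (((Finset.range X).filter (fun x => ω ∈ B x)).card : ℝ) ≤
        ((Finset.range X).filter (fun x => ω ∈ B x ∧ x0 + 2 ≤ x)).card + (x0 + 2) := by exact_mod_cast h2
    linarith
  -- divergence
  have hdivX : ∀ ε : ℝ, 0 < ε → ε < 1 → ∀ᶠ X : ℕ in atTop, 2 * (X : ℝ) ^ (1 - ε) ≤
      ∑ n ∈ Finset.range (h - 1 + X), w n ω * dens μ ℱ A n ω := by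
    intro ε hε hε1
    have g1 := growth (c := c / 2) (x0 := (x0 : ℝ) + 2) (by positivity) hε hε1 h
    filter_upwards [g1, hLC' (ε / 2) (by positivity), eventually_ge_atTop 2] with X hX1 hX2 hX3
    refine le_trans ?_ (hlow X (by omega))
    have hL : 0 < Real.log ((X + h : ℕ) : ℝ) := Real.log_pos (by exact_mod_cast (by omega : 1 < X + h))
    have h3 : c / Real.log ((X + h : ℕ) : ℝ) * ((X : ℝ) ^ (1 - ε / 2) - (x0 + 2)) ≤
        c / Real.log ((X + h : ℕ) : ℝ) * ((((Finset.range X).filter (fun x => ω ∈ B x)).card : ℝ) - x0 - 2) := by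
      apply mul_le_mul_of_nonneg_left _ (by positivity)
      linarith
    have e1 : c / 2 / Real.log ((X + h : ℕ) : ℝ) = c / Real.log ((X + h : ℕ) : ℝ) / 2 := by ring
    rw [e1] at hX1
    nlinarith
  have hmono : Monotone (fun N => ∑ n ∈ Finset.range N, w n ω * dens μ ℱ A n ω) := by
    refine monotone_nat_of_le_succ fun n => ?_
    rw [Finset.sum_range_succ]
    have := mul_nonneg (h01 n ω).1 (hdn n)
    linarith
  have hdiv : Tendsto (fun N => ∑ n ∈ Finset.range N, w n ω * dens μ ℱ A n ω) atTop atTop := by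
    rw [tendsto_atTop_atTop]
    intro b
    have g2 : Tendsto (fun X : ℕ => (X : ℝ) ^ (1 - (1 / 2 : ℝ))) atTop atTop :=
      (tendsto_rpow_atTop (by norm_num)).comp tendsto_natCast_atTop_atTop
    obtain ⟨X, hX⟩ := ((hdivX (1 / 2) (by norm_num) (by norm_num)).and
      ((g2.eventually_ge_atTop b).and (eventually_ge_atTop 0))).exists
    refine ⟨h - 1 + X, fun N hN => le_trans ?_ (hmono hN)⟩
    have := hX.1
    have h5 := hX.2.1
    have : 0 ≤ (X : ℝ) ^ (1 - (1 / 2 : ℝ)) := by positivity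
    linarith
  have hratio := hlv hdiv
  have hhalf : ∀ᶠ N : ℕ in atTop, (1 / 2 : ℝ) * ∑ n ∈ Finset.range N, w n ω * dens μ ℱ A n ω ≤
      ∑ n ∈ Finset.range N, w n ω * J1 A (n + 1) ω := by
    filter_upwards [hratio.eventually_const_lt (show (1 / 2 : ℝ) < 1 by norm_num), hdiv.eventually_gt_atTop 0] with N h1 h2
    rw [lt_div_iff₀ h2] at h1
    exact h1.le
  refine LC_of_small fun ε hε hε1 => ?_
  have hsh : Tendsto (fun X : ℕ => h - 1 + X) atTop atTop := tendsto_atTop_mono (fun X => Nat.le_add_left _ _) tendsto_id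
  filter_upwards [hdivX ε hε hε1, hsh.eventually hhalf] with X h1 h2
  rw [hJ] at h2
  have h3 : (X : ℝ) ^ (1 - ε) ≤ (((Finset.range X).filter (fun x => ω ∈ B x ∧ ω ∈ A (x + h))).card : ℝ) := by linarith
  convert h3

end Pool.Agent.N732.CG
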