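import Mathlib
import Pool.Agent.N732.CG.Step

/-!
# Tuples in sequential random models with growing sieving moduli, part 2
-/

set_option autoImplicit false
set_option linter.unusedSectionVars false

open MeasureTheory Filter Set
open scoped ENNReal Topology

namespace Pool.Agent.N732.CG

open Pool.Agent.R528.RM Pool.Agent.N740.HK

variable {Ω : Type} {m0 : MeasurableSpace Ω} {μ : Measure Ω} [IsProbabilityMeasure μ]
  {ℱ : Filtration ℕ m0} {A : ℕ → Set Ω}

/-- a residue class modulo every prime is missed -/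
def Adm (H : Finset ℕ) : Prop := ∀ p : ℕ, p.Prime → ∃ r : ℕ, ∀ h ∈ H, ¬ h ≡ r [MOD p]

lemma exists_class (H : Finset ℕ) (hH : Adm H) (M : ℕ) (hM : 0 < M) :
    ∃ x0 : ℕ, x0 < M ∧ ∀ x, x ≡ x0 [MOD M] → ∀ h ∈ H, ∀ l : ℕ, l.Prime → l ∣ M → ¬ l ∣ x + h := by
  classical
  choose! r hr using hH
  obtain ⟨y, hy⟩ := Pool.Agent.N909.TF.crt_primes M (fun l => l - r l % l)
  refine ⟨y % M, Nat.mod_lt _ hM, fun x hx h hh l hl hlM hdvd => ?_⟩
  have h1 := hy x (hx.trans (Nat.mod_modEq y M)) l hl hlM hM.ne'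
  have hlt : r l % l < l := Nat.mod_lt _ hl.pos
  apply hr l hl h hh
  -- x + h ≡ l - r + h ≡ 0
  have h2 : (l - r l % l) + h ≡ 0 [MOD l] :=
    ((h1.add_right h).symm).trans ((Nat.modEq_zero_iff_dvd).2 hdvd)
  have h3 : (l - r l % l) + h + r l % l ≡ 0 + r l % l [MOD l] := h2.add_right _
  have e1 : (l - r l % l) + h + r l % l = h + l := by omega
  rw [e1, zero_add] at h3
  have h4 : h + l ≡ h [MOD l] := by
    unfold Nat.ModEq
    simp
  exact (h4.symm.trans h3).trans (Nat.mod_modEq _ _)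

open Classical in
lemma base (H : Finset ℕ) (hH : Adm H) (Q : ℕ → ℕ) (hpos : ∀ n, 0 < Q n) (hmono : ∀ m n, m ≤ n → Q m ∣ Q n)
    (hgr : ∀ ε : ℝ, 0 < ε → ∀ᶠ n : ℕ in atTop, (Q n : ℝ) ≤ (n : ℝ) ^ ε) :
    LC (fun x => ∀ h ∈ H, Nat.Coprime (x + h) (Q (x + h))) := by
  refine LC_of_small fun ε hε hε1 => ?_
  set y : ℕ := H.sup id with hy
  have hg1 := hgr (ε / 4) (by positivity)
  have hsh : Tendsto (fun X : ℕ => X + y) atTop atTop := tendsto_atTop_mono (fun X => Nat.le_add_right _ _) tendsto_id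
  have h2 : Tendsto (fun X : ℕ => (X : ℝ) ^ (ε / 2)) atTop atTop :=
    (tendsto_rpow_atTop (by positivity)).comp tendsto_natCast_atTop_atTop
  filter_upwards [hsh.eventually hg1, h2.eventually_ge_atTop 2, eventually_ge_atTop (y + 2)] with X hX1 hX2 hX3
  have hX0 : (0 : ℝ) < X := by exact_mod_cast (by omega : 0 < X)
  have hX1' : (1 : ℝ) ≤ X := by exact_mod_cast (by omega : 1 ≤ X)
  set M : ℕ := Q (X + y) with hM
  obtain ⟨x0, hx0M, hx0⟩ := exists_class H hH M (hpos _)
  have hMX : (M : ℝ) ≤ (X : ℝ) ^ (ε / 2) := by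
    refine hX1.trans ?_
    have e1 : ((X + y : ℕ) : ℝ) ≤ (X : ℝ) ^ (2 : ℝ) := by
      rw [Real.rpow_two]
      have : X + y ≤ X ^ 2 := by nlinarith
      exact_mod_cast this
    calc ((X + y : ℕ) : ℝ) ^ (ε / 4) ≤ ((X : ℝ) ^ (2 : ℝ)) ^ (ε / 4) :=
          Real.rpow_le_rpow (Nat.cast_nonneg _) e1 (by positivity)
      _ = (X : ℝ) ^ (ε / 2) := by rw [← Real.rpow_mul hX0.le]; congr 1; ring
  have hMpos : (0 : ℝ) < M := by exact_mod_cast hpos _
  -- the injection
  have hcard : X / M ≤ ((Finset.range X).filter (fun x => ∀ h ∈ H, Nat.Coprime (x + h) (Q (x + h)))).card := by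
    have h3 : (Finset.range (X / M)).image (fun i => x0 + i * M) ⊆
        (Finset.range X).filter (fun x => ∀ h ∈ H, Nat.Coprime (x + h) (Q (x + h))) := by
      intro x hx
      rw [Finset.mem_image] at hx
      obtain ⟨i, hi, rfl⟩ := hx
      have hi' := Finset.mem_range.1 hi
      rw [Finset.mem_filter, Finset.mem_range]
      have hlt : x0 + i * M < X := by
        have h5 : (i + 1) * M ≤ X / M * M := Nat.mul_le_mul_right _ (by omega)
        have h6 : X / M * M ≤ X := Nat.div_mul_le_self _ _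
        have h7 : (i + 1) * M = i * M + M := by ring
        omega
      refine ⟨hlt, fun h hh => ?_⟩
      rw [Pool.Agent.N909.TF.coprime_iff_primes]
      intro l hl hlQ
      have hle : h ≤ y := Finset.le_sup (f := id) hh
      have hlM : l ∣ M := hlQ.trans (hmono _ _ (by omega))
      refine hx0 (x0 + i * M) ?_ h hh l hl hlM
      unfold Nat.ModEq
      simp
    have h4 := Finset.card_le_card h3
    rw [Finset.card_image_of_injective _ (fun i j hij => by
      have : i * M = j * M := by simpa using hij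
      exact Nat.eq_of_mul_eq_mul_right (hpos _) this), Finset.card_range] at h4
    exact h4
  have h5 : (X : ℝ) ^ (1 - ε) ≤ ((X / M : ℕ) : ℝ) := by
    have h6 : (X : ℝ) / M - 1 ≤ ((X / M : ℕ) : ℝ) := by
      have h7 := Nat.lt_div_mul_add (a := X) (b := M) (hpos _)
      have h8 : (X : ℝ) < ((X / M : ℕ) : ℝ) * M + M := by exact_mod_cast h7
      rw [sub_le_iff_le_add, div_le_iff₀ hMpos]
      nlinarith
    have h7 : (X : ℝ) ^ (1 - ε / 2) ≤ (X : ℝ) / M := by
      rw [le_div_iff₀ hMpos]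
      calc (X : ℝ) ^ (1 - ε / 2) * M ≤ (X : ℝ) ^ (1 - ε / 2) * (X : ℝ) ^ (ε / 2) :=
            mul_le_mul_of_nonneg_left hMX (by positivity)
        _ = X := by rw [← Real.rpow_add hX0, sub_add_cancel, Real.rpow_one]
    have h8 : (X : ℝ) ^ (1 - ε / 2) = (X : ℝ) ^ (1 - ε) * (X : ℝ) ^ (ε / 2) := by
      rw [← Real.rpow_add hX0]; congr 1; ring
    have h9 : 1 ≤ (X : ℝ) ^ (1 - ε) := Real.one_le_rpow hX1' (by linarith)
    nlinarith
  have h6 : (X : ℝ) ^ (1 - ε) ≤
      (((Finset.range X).filter (fun x => ∀ h ∈ H, Nat.Coprime (x + h) (Q (x + h)))).card : ℝ) :=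
    h5.trans (by exact_mod_cast hcard)
  convert h6

/-- **Every admissible tuple occurs.** -/
theorem tuples (hA : ∀ n, MeasurableSet[ℱ n] (A n)) (Q : ℕ → ℕ) (hpos : ∀ n, 0 < Q n)
    (hmono : ∀ m n, m ≤ n → Q m ∣ Q n)
    (hgr : ∀ ε : ℝ, 0 < ε → ∀ᶠ n : ℕ in atTop, (Q n : ℝ) ≤ (n : ℝ) ^ ε)
    (hd : ∀ᵐ ω ∂μ, ∃ c : ℝ, 0 < c ∧ ∀ᶠ n : ℕ in atTop, Nat.Coprime (n + 1) (Q (n + 1)) →
      c / Real.log ((n + 1 : ℕ) : ℝ) ≤ dens μ ℱ A n ω)
    (H : Finset ℕ) (hH1 : ∀ h ∈ H, 1 ≤ h) (hH : Adm H) :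
    ∀ᵐ ω ∂μ, LC (fun x => ∀ h ∈ H, ω ∈ A (x + h)) := by
  classical
  have key : ∀ s : Finset ℕ, s ⊆ H → ∀ᵐ ω ∂μ, LC (fun x => (∀ h ∈ H, Nat.Coprime (x + h) (Q (x + h))) ∧
      ∀ h ∈ s, ω ∈ A (x + h)) := by
    intro s
    induction s using Finset.induction_on_max with
    | empty =>
      intro _
      refine Eventually.of_forall fun ω => ?_
      exact (base H hH Q hpos hmono hgr).mono (Eventually.of_forall fun x hx => ⟨hx, by simp⟩)
    | insert a s hmax ih =>
      intro hs
      have hsH : s ⊆ H := fun x hx => hs (Finset.mem_insert_of_mem hx)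
      have haH : a ∈ H := hs (Finset.mem_insert_self _ _)
      have ha1 := hH1 a haH
      have ih' := ih hsH
      set B : ℕ → Set Ω := fun x => {ω | (∀ h ∈ H, Nat.Coprime (x + h) (Q (x + h))) ∧ ∀ h ∈ s, ω ∈ A (x + h)} with hB
      have hBm : ∀ x, MeasurableSet[ℱ (x + a - 1)] (B x) := by
        intro x
        by_cases hx : ∀ h ∈ H, Nat.Coprime (x + h) (Q (x + h))
        · have e : B x = ⋂ h ∈ s, A (x + h) := by
            ext ω
            simp only [hB, Set.mem_ofPred_eq, Set.mem_iInter]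
            exact ⟨fun hω => hω.2, fun hω => ⟨hx, hω⟩⟩
          rw [e]
          refine Finset.measurableSet_biInter s fun h hh => ?_
          have := hmax h hh
          exact ℱ.mono (by omega) _ (hA (x + h))
        · have e : B x = ∅ := by
            ext ω
            simp only [hB, Set.mem_ofPred_eq, Set.mem_empty_iff_false, iff_false]
            exact fun hω => hx hω.1
          rw [e]
          exact @MeasurableSet.empty _ (ℱ (x + a - 1))
      have h1 := step (μ := μ) hA a ha1 B hBm (by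
        filter_upwards [ih'] with ω hω
        exact hω) (by
        filter_upwards [hd] with ω hω
        obtain ⟨c, hc, hω⟩ := hω
        refine ⟨c, hc, ?_⟩
        have hsh : Tendsto (fun x : ℕ => x + a - 1) atTop atTop :=
          tendsto_atTop_mono (fun x => by show x ≤ x + a - 1; omega) tendsto_id
        filter_upwards [hsh.eventually hω] with x hx hxB
        rw [show x + a - 1 + 1 = x + a by omega] at hx
        exact hx (hxB.1 a haH))
      filter_upwards [h1] with ω hω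
      refine hω.mono (Eventually.of_forall fun x hx => ?_)
      refine ⟨hx.1.1, fun h hh => ?_⟩
      rcases Finset.mem_insert.1 hh with rfl | hh
      · exact hx.2
      · exact hx.1.2 h hh
  filter_upwards [key H (Finset.Subset.refl _)] with ω hω
  exact hω.mono (Eventually.of_forall fun x hx => hx.2)

end Pool.Agent.N732.CG
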