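import Mathlib

/-!
# The expected number of elements in a sieved model, with second order accuracy
-/

set_option autoImplicit false

open Filter

namespace Pool.Agent.N732.CG

/-- the bound for the densities in the block `[2^j, 2^(j+1))` -/
noncomputable def bet (C : ℝ) (j : ℕ) : ℝ := 1 / (j * Real.log 2) * (1 + C / (j * Real.log 2))

lemma block {d : ℕ → ℝ} {R : ℕ → ℕ} (hR : ∀ j, 0 < R j)
    (hcop : ∀ m, ¬ Nat.Coprime m (R (Nat.log 2 m)) → d m = 0) {C : ℝ} (hC : 0 ≤ C) {m0 : ℕ}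
    (hup : ∀ m, m0 ≤ m → Nat.Coprime m (R (Nat.log 2 m)) →
      d m ≤ ((R (Nat.log 2 m) : ℝ) / Nat.totient (R (Nat.log 2 m))) * (1 / Real.log m * (1 + C / Real.log m)))
    {j : ℕ} (hj : 1 ≤ j) (hj0 : m0 ≤ 2 ^ j) (n : ℕ) (hn : n ≤ 2 ^ j) :
    ∑ m ∈ Finset.Ico (2 ^ j) (2 ^ j + n), d m ≤ bet C j * ((n : ℝ) + R j) := by
  have hl2 : 0 < Real.log 2 := Real.log_pos (by norm_num)
  have hj' : (0 : ℝ) < j := by exact_mod_cast hj
  have hb0 : 0 ≤ bet C j := by unfold bet; positivity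
  have hφ : 0 < Nat.totient (R j) := Nat.totient_pos.2 (hR j)
  have hφ' : (0 : ℝ) < Nat.totient (R j) := by exact_mod_cast hφ
  have hR' : (0 : ℝ) < R j := by exact_mod_cast hR j
  have h1 : ∀ m ∈ Finset.Ico (2 ^ j) (2 ^ j + n), d m ≤
      if Nat.Coprime (R j) m then ((R j : ℝ) / Nat.totient (R j)) * bet C j else 0 := by
    intro m hm
    rw [Finset.mem_Ico] at hm
    have hlog : Nat.log 2 m = j := by
      apply (Nat.log_eq_iff (Or.inl (by omega))).2
      refine ⟨hm.1, ?_⟩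
      rw [pow_succ]; omega
    by_cases hc : Nat.Coprime (R j) m
    · rw [if_pos hc]
      have h2 := hup m (by omega) (by rw [hlog]; exact hc.symm)
      rw [hlog] at h2
      refine h2.trans (mul_le_mul_of_nonneg_left ?_ (by positivity))
      have hlm : (j : ℝ) * Real.log 2 ≤ Real.log m := by
        rw [← Real.log_pow]
        apply Real.log_le_log (by positivity)
        exact_mod_cast hm.1
      have hjl : 0 < (j : ℝ) * Real.log 2 := by positivity
      unfold bet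
      apply mul_le_mul
      · exact one_div_le_one_div_of_le hjl hlm
      · have := div_le_div_of_nonneg_left hC hjl hlm
        linarith
      · have : 0 < Real.log m := lt_of_lt_of_le hjl hlm
        positivity
      · positivity
    · rw [if_neg hc, hcop m (by rw [hlog]; exact fun h => hc h.symm)]
  refine (Finset.sum_le_sum h1).trans ?_
  rw [← Finset.sum_filter, Finset.sum_const, nsmul_eq_mul]
  have h2 := Nat.Ico_filter_coprime_le (2 ^ j) n (hR j).ne'
  have h3 : (((Finset.Ico (2 ^ j) (2 ^ j + n)).filter (fun m => Nat.Coprime (R j) m)).card : ℝ) ≤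
      (Nat.totient (R j) : ℝ) * ((n : ℝ) / R j + 1) := by
    have h4 : (((Finset.Ico (2 ^ j) (2 ^ j + n)).filter (fun m => Nat.Coprime (R j) m)).card : ℝ) ≤
        ((Nat.totient (R j) * (n / R j + 1) : ℕ) : ℝ) := by exact_mod_cast h2
    refine h4.trans ?_
    push_cast
    apply mul_le_mul_of_nonneg_left _ hφ'.le
    have := Nat.cast_div_le (α := ℝ) (m := n) (n := R j)
    linarith
  calc _ ≤ (Nat.totient (R j) : ℝ) * ((n : ℝ) / R j + 1) * (((R j : ℝ) / Nat.totient (R j)) * bet C j) :=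
        mul_le_mul_of_nonneg_right h3 (by positivity)
    _ = bet C j * ((n : ℝ) + R j) := by field_simp

/-- comparison of consecutive dyadic scales -/
lemma scale_ineq {c K : ℝ} (hc : 0 ≤ c) (hK : 5 * (2 * c + 3) ≤ K) {j : ℝ} (hj : 6 ≤ j) :
    1 / j * (1 + K / j) + 1 / j * (1 + c / j) * (1 + 1 / j) ≤ 2 * (1 / (j + 1) * (1 + K / (j + 1))) := by
  have hj0 : 0 < j := by linarith
  rw [← sub_nonneg]
  have e : 2 * (1 / (j + 1) * (1 + K / (j + 1))) - (1 / j * (1 + K / j) + 1 / j * (1 + c / j) * (1 + 1 / j)) =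
      (2 * j ^ 3 * (j + 1 + K) - j * (j + K) * (j + 1) ^ 2 - (j + c) * (j + 1) * (j + 1) ^ 2) / (j ^ 3 * (j + 1) ^ 2) := by
    field_simp
    ring
  rw [e]
  apply div_nonneg _ (by positivity)
  have h1 : 0 ≤ j - 6 := by linarith
  obtain ⟨t, rfl⟩ : ∃ t, j = t + 6 := ⟨j - 6, by ring⟩
  have ht : 0 ≤ t := by linarith
  obtain ⟨s, rfl⟩ : ∃ s, K = 5 * (2 * c + 3) + s := ⟨K - 5 * (2 * c + 3), by ring⟩
  have hs : 0 ≤ s := by linarith
  ring_nf
  positivity

/-- the sum over an initial segment -/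
theorem upper {d : ℕ → ℝ} {R : ℕ → ℕ} (hR : ∀ j, 0 < R j) (hRg : ∀ᶠ j : ℕ in atTop, (R j : ℝ) * j ≤ 2 ^ j)
    (hd1 : ∀ m, d m ≤ 1)
    (hcop : ∀ m, ¬ Nat.Coprime m (R (Nat.log 2 m)) → d m = 0) {C : ℝ} (hC : 0 ≤ C) {m0 : ℕ}
    (hup : ∀ m, m0 ≤ m → Nat.Coprime m (R (Nat.log 2 m)) →
      d m ≤ ((R (Nat.log 2 m) : ℝ) / Nat.totient (R (Nat.log 2 m))) * (1 / Real.log m * (1 + C / Real.log m))) :
    ∃ C' : ℝ, ∀ᶠ N : ℕ in atTop, ∑ m ∈ Finset.range (N + 1), d m ≤
      (N : ℝ) / Real.log N + C' * ((N : ℝ) / Real.log N ^ 2) := by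
  set l : ℝ := Real.log 2 with hl
  have hl2 : 0 < l := Real.log_pos (by norm_num)
  set c : ℝ := C / l with hcdef
  have hc0 : 0 ≤ c := by positivity
  set K : ℝ := 5 * (2 * c + 3) with hK
  have hK0 : 0 ≤ K := by positivity
  obtain ⟨j1, hj1⟩ := eventually_atTop.1 hRg
  set J0 : ℕ := j1 + m0 + 6 with hJ0
  set S : ℕ → ℝ := fun N => ∑ m ∈ Finset.range N, d m with hS
  have hbet : ∀ j : ℕ, 1 ≤ j → bet C j = 1 / l * (1 / j * (1 + c / j)) := by
    intro j hj
    have hj' : (0 : ℝ) < j := by exact_mod_cast hj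
    unfold bet
    rw [← hl, hcdef]
    field_simp
  have hbet0 : ∀ j : ℕ, 0 ≤ bet C j := by
    intro j
    unfold bet
    positivity
  have hm0j : ∀ j : ℕ, J0 ≤ j → m0 ≤ 2 ^ j := fun j hj => by
    have : j < 2 ^ j := Nat.lt_two_pow_self
    omega
  have hblk : ∀ j : ℕ, J0 ≤ j → ∀ n : ℕ, n ≤ 2 ^ j → S (2 ^ j + n) ≤ S (2 ^ j) + bet C j * ((n : ℝ) + R j) := by
    intro j hj n hn
    have h1 := block hR hcop hC hup (j := j) (by omega) (hm0j j hj) n hn
    simp only [hS]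
    rw [← Finset.sum_range_add_sum_Ico d (show 2 ^ j ≤ 2 ^ j + n by omega)]
    linarith
  have hRj : ∀ j : ℕ, J0 ≤ j → (R j : ℝ) ≤ (2 : ℝ) ^ j / j := by
    intro j hj
    have hj' : (0 : ℝ) < j := by exact_mod_cast (by omega : 0 < j)
    rw [le_div_iff₀ hj']
    exact hj1 j (by omega)
  have hdy : ∀ j : ℕ, J0 ≤ j → S (2 ^ j) ≤ S (2 ^ J0) + 2 ^ j / l * (1 / j * (1 + K / j)) := by
    intro j hj
    induction j, hj using Nat.le_induction with
    | base =>
      have : (0 : ℝ) ≤ 2 ^ J0 / l * (1 / J0 * (1 + K / J0)) := by positivity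
      linarith
    | succ j hj ih =>
      have hj' : (6 : ℝ) ≤ j := by exact_mod_cast (by omega : 6 ≤ j)
      have hj0 : (0 : ℝ) < j := by linarith
      have h1 := hblk j hj (2 ^ j) le_rfl
      have e1 : 2 ^ j + 2 ^ j = 2 ^ (j + 1) := by ring
      rw [e1] at h1
      have h2 : bet C j * (((2 ^ j : ℕ) : ℝ) + R j) ≤ 2 ^ j / l * (1 / j * (1 + c / j) * (1 + 1 / j)) := by
        rw [hbet j (by omega)]
        have h3 := hRj j hj
        calc 1 / l * (1 / j * (1 + c / j)) * (((2 ^ j : ℕ) : ℝ) + R j)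
            ≤ 1 / l * (1 / j * (1 + c / j)) * ((2 : ℝ) ^ j + 2 ^ j / j) := by
              apply mul_le_mul_of_nonneg_left _ (by positivity)
              push_cast
              linarith
          _ = 2 ^ j / l * (1 / j * (1 + c / j) * (1 + 1 / j)) := by
              field_simp
      have h4 := scale_ineq hc0 (le_refl K) hj'
      have h5 := mul_le_mul_of_nonneg_left h4 (show (0 : ℝ) ≤ 2 ^ j / l by positivity)
      have e2 : (2 : ℝ) ^ (j + 1) / l * (1 / ((j + 1 : ℕ) : ℝ) * (1 + K / ((j + 1 : ℕ) : ℝ))) =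
          2 ^ j / l * (2 * (1 / ((j : ℝ) + 1) * (1 + K / ((j : ℝ) + 1)))) := by
        push_cast
        rw [pow_succ]; ring
      rw [e2]
      rw [mul_add] at h5
      linarith
  set B0 : ℝ := S (2 ^ J0) with hB0
  set K2 : ℝ := K + 2 * c + 1 with hK2
  have hK20 : 0 ≤ K2 := by positivity
  have hN : ∀ N : ℕ, 2 ^ J0 ≤ N → S (N + 1) ≤ B0 + 1 +
      (N : ℝ) * (1 / ((Nat.log 2 N : ℕ) * l) * (1 + K2 / (Nat.log 2 N : ℕ))) := by
    intro N hN
    have hN0 : N ≠ 0 := by
      have : 0 < 2 ^ J0 := by positivity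
      omega
    set J : ℕ := Nat.log 2 N with hJ
    have hJ1 : 2 ^ J ≤ N := Nat.pow_log_le_self 2 hN0
    have hJ2 : N < 2 ^ (J + 1) := Nat.lt_pow_succ_log_self (by norm_num) N
    have hJJ : J0 ≤ J := Nat.le_log_of_pow_le (by norm_num) hN
    have hJ' : (6 : ℝ) ≤ J := by exact_mod_cast (by omega : 6 ≤ J)
    have hJ0' : (0 : ℝ) < J := by linarith
    obtain ⟨n, hn⟩ : ∃ n, N = 2 ^ J + n := ⟨N - 2 ^ J, by omega⟩
    have hn2 : n ≤ 2 ^ J := by rw [pow_succ] at hJ2; omega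
    have h1 := hblk J hJJ n hn2
    rw [← hn] at h1
    have h2 := hdy J hJJ
    have h3 : S (N + 1) ≤ S N + 1 := by
      simp only [hS]
      rw [Finset.sum_range_succ]
      linarith [hd1 N]
    have h4 := hRj J hJJ
    rw [hbet J (by omega)] at h1
    have hNr : (N : ℝ) = 2 ^ J + n := by rw [hn]; push_cast; ring
    have h5 : (2 : ℝ) ^ J / l * (1 / J * (1 + K / J)) + 1 / l * (1 / J * (1 + c / J)) * ((n : ℝ) + R J) ≤
        (N : ℝ) * (1 / (J * l) * (1 + K2 / J)) := by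
      have hn0 : (0 : ℝ) ≤ n := Nat.cast_nonneg n
      have h6 : 1 / l * (1 / J * (1 + c / J)) * ((n : ℝ) + R J) ≤
          1 / l * (1 / J * (1 + c / J)) * ((n : ℝ) + 2 ^ J / J) := by
        apply mul_le_mul_of_nonneg_left _ (by positivity)
        linarith
      refine (add_le_add_right h6 _).trans ?_
      rw [hNr]
      have h7 : (2 : ℝ) ^ J / l * (1 / J * (1 + K / J)) + 1 / l * (1 / J * (1 + c / J)) * ((n : ℝ) + 2 ^ J / J) =
          1 / (J * l) * (2 ^ J * (1 + K / J + (1 + c / J) / J) + n * (1 + c / J)) := by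
        field_simp
        ring
      rw [h7]
      have h8 : ((2 : ℝ) ^ J + n) * (1 / (J * l) * (1 + K2 / J)) =
          1 / (J * l) * (2 ^ J * (1 + K2 / J) + n * (1 + K2 / J)) := by ring
      rw [h8]
      apply mul_le_mul_of_nonneg_left _ (by positivity)
      have h9 : c / J ≤ c := div_le_self hc0 (by linarith)
      have h10 : 1 + K / J + (1 + c / J) / J ≤ 1 + K2 / J := by
        rw [hK2]
        have : (1 + c / J) / J ≤ (1 + c) / J := div_le_div_of_nonneg_right (by linarith) hJ0'.le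
        have e : (K + 2 * c + 1) / J = K / J + (1 + c) / J + c / J := by ring
        have : 0 ≤ c / J := by positivity
        linarith
      have h11 : 1 + c / J ≤ 1 + K2 / J := by
        have : c / J ≤ K2 / J := div_le_div_of_nonneg_right (by rw [hK2]; linarith) hJ0'.le
        linarith
      exact add_le_add (mul_le_mul_of_nonneg_left h10 (by positivity)) (mul_le_mul_of_nonneg_left h11 hn0)
    linarith
  refine ⟨2 * l + 4 * K2 * l + 1, ?_⟩
  have hev1 : ∀ᶠ N : ℕ in atTop, (B0 + 1) * Real.log N ^ 2 ≤ N := by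
    have h1 := (Real.isLittleO_pow_log_id_atTop (n := 2)).def (show (0 : ℝ) < 1 / (|B0 + 1| + 1) by positivity)
    filter_upwards [tendsto_natCast_atTop_atTop.eventually h1] with N hN
    rw [Real.norm_eq_abs, abs_of_nonneg (sq_nonneg _), id, Real.norm_of_nonneg (Nat.cast_nonneg N)] at hN
    rw [one_div_mul_eq_div, le_div_iff₀ (by positivity)] at hN
    have h2 := le_abs_self (B0 + 1)
    nlinarith [sq_nonneg (Real.log N)]
  filter_upwards [hev1, eventually_ge_atTop (2 ^ J0)] with N h1 h2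
  have h3 := hN N h2
  have hN0 : N ≠ 0 := by
    have : 0 < 2 ^ J0 := by positivity
    omega
  set J : ℕ := Nat.log 2 N with hJ
  have hJ1 : 2 ^ J ≤ N := Nat.pow_log_le_self 2 hN0
  have hJ2 : N < 2 ^ (J + 1) := Nat.lt_pow_succ_log_self (by norm_num) N
  have hJJ : J0 ≤ J := Nat.le_log_of_pow_le (by norm_num) h2
  have hJ' : (6 : ℝ) ≤ J := by exact_mod_cast (by omega : 6 ≤ J)
  have hJ0' : (0 : ℝ) < J := by linarith
  have hNr0 : (0 : ℝ) < N := by exact_mod_cast Nat.pos_of_ne_zero hN0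
  have hL1 : (J : ℝ) * l ≤ Real.log N := by
    rw [hl, ← Real.log_pow]
    exact Real.log_le_log (by positivity) (by exact_mod_cast hJ1)
  have hL2 : Real.log N ≤ ((J : ℝ) + 1) * l := by
    have h4 : Real.log N ≤ Real.log ((2 : ℝ) ^ (J + 1)) := Real.log_le_log hNr0 (by exact_mod_cast hJ2.le)
    rw [Real.log_pow] at h4
    push_cast at h4
    exact h4
  have hL0 : 0 < Real.log N := lt_of_lt_of_le (by positivity) hL1
  set L : ℝ := Real.log N with hLdef
  have hJL : 1 / (J : ℝ) ≤ 2 * l / L := by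
    rw [div_le_div_iff₀ hJ0' hL0]
    nlinarith
  have hJL2 : 1 / ((J : ℝ) * l) ≤ 1 / L + 2 * l / L ^ 2 := by
    have h5 : 1 / ((J : ℝ) * l) - 1 / L ≤ 1 / J * (1 / L) := by
      rw [div_sub_div _ _ (by positivity) hL0.ne', one_div_mul_one_div, div_le_div_iff₀ (by positivity) (by positivity)]
      nlinarith [mul_pos hJ0' hL0]
    have h6 : 1 / (J : ℝ) * (1 / L) ≤ 2 * l / L * (1 / L) := mul_le_mul_of_nonneg_right hJL (by positivity)
    have e : 2 * l / L * (1 / L) = 2 * l / L ^ 2 := by field_simp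
    linarith
  have h7 : 1 / ((J : ℝ) * l) * (1 + K2 / J) ≤ 1 / L + (2 * l + 4 * K2 * l) / L ^ 2 := by
    have h8 : 1 / ((J : ℝ) * l) * (K2 / J) = K2 / l * ((1 / J) * (1 / J)) := by field_simp
    have h9 : (1 / (J : ℝ)) * (1 / J) ≤ (2 * l / L) * (2 * l / L) :=
      mul_le_mul hJL hJL (by positivity) (by positivity)
    have h10 : K2 / l * ((1 / J) * (1 / J)) ≤ K2 / l * ((2 * l / L) * (2 * l / L)) :=
      mul_le_mul_of_nonneg_left h9 (by positivity)
    have e1 : K2 / l * ((2 * l / L) * (2 * l / L)) = 4 * K2 * l / L ^ 2 := by field_simp; ring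
    have e2 : (2 * l + 4 * K2 * l) / L ^ 2 = 2 * l / L ^ 2 + 4 * K2 * l / L ^ 2 := by ring
    rw [mul_add, mul_one, h8, e2]
    linarith
  have h11 := mul_le_mul_of_nonneg_left h7 hNr0.le
  have h12 : B0 + 1 ≤ N / L ^ 2 := by
    rw [le_div_iff₀ (by positivity)]
    exact h1
  have e3 : (N : ℝ) * (1 / L + (2 * l + 4 * K2 * l) / L ^ 2) = N / L + (2 * l + 4 * K2 * l) * (N / L ^ 2) := by ring
  rw [e3] at h11
  have e4 : (2 * l + 4 * K2 * l + 1) * ((N : ℝ) / L ^ 2) = (2 * l + 4 * K2 * l) * (N / L ^ 2) + N / L ^ 2 := by ring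
  rw [e4]
  show S (N + 1) ≤ _
  linarith

end Pool.Agent.N732.CG
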