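import Mathlib
import Pool.Agent.N732.CG.Tup
import Pool.Agent.N732.CG.Lln
import Pool.Agent.N732.CG.Upper
import Pool.Agent.H381R2.HR.Main

/-!
# The Hardy–Littlewood function of a sequential sieved random model
-/

set_option autoImplicit false
set_option linter.unusedSectionVars false

open MeasureTheory Filter Set
open scoped ENNReal Topology

namespace Pool.Agent.N732.CG

open Pool.Agent.R528.RM Pool.Agent.N740.HK

variable {Ω : Type} {m0 : MeasurableSpace Ω} {μ : Measure Ω} [IsProbabilityMeasure μ]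
  {ℱ : Filtration ℕ m0} {A : ℕ → Set Ω}

/-- the number of elements of `S` in `(x, x + y]` -/
noncomputable def cnt (S : Set ℕ) (x y : ℕ) : ℕ := {n : ℕ | x < n ∧ n ≤ x + y ∧ n ∈ S}.ncard

/-- the largest size of an admissible subset of `{1, ..., y}` -/
noncomputable def rhoStar (y : ℕ) : ℕ := sSup {k : ℕ | ∃ H : Finset ℕ, H ⊆ Finset.Icc 1 y ∧ Adm H ∧ H.card = k}

lemma rhoStar_bdd (y : ℕ) : BddAbove {k : ℕ | ∃ H : Finset ℕ, H ⊆ Finset.Icc 1 y ∧ Adm H ∧ H.card = k} := by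
  refine ⟨y, ?_⟩
  rintro k ⟨H, hH, -, rfl⟩
  have := Finset.card_le_card hH
  simpa using this

lemma le_rhoStar {y : ℕ} {H : Finset ℕ} (h1 : H ⊆ Finset.Icc 1 y) (h2 : Adm H) : H.card ≤ rhoStar y :=
  le_csSup (rhoStar_bdd y) ⟨H, h1, h2, rfl⟩

lemma exists_rhoStar (y : ℕ) : ∃ H : Finset ℕ, H ⊆ Finset.Icc 1 y ∧ Adm H ∧ H.card = rhoStar y := by
  have h1 : {k : ℕ | ∃ H : Finset ℕ, H ⊆ Finset.Icc 1 y ∧ Adm H ∧ H.card = k}.Nonempty :=
    ⟨0, ∅, Finset.empty_subset _, fun p _ => ⟨0, by simp⟩, rfl⟩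
  exact Nat.sSup_mem h1 (rhoStar_bdd y)

/-- the offsets of the elements of `S` in the window -/
lemma cnt_eq (S : Set ℕ) (x y : ℕ) :
    ∃ H : Finset ℕ, H ⊆ Finset.Icc 1 y ∧ (∀ h, h ∈ H ↔ (1 ≤ h ∧ h ≤ y ∧ x + h ∈ S)) ∧ H.card = cnt S x y := by
  classical
  refine ⟨(Finset.Icc 1 y).filter (fun h => x + h ∈ S), Finset.filter_subset _ _, fun h => by
    rw [Finset.mem_filter, Finset.mem_Icc, and_assoc], ?_⟩
  unfold cnt
  have e : {n : ℕ | x < n ∧ n ≤ x + y ∧ n ∈ S} =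
      (((Finset.Icc 1 y).filter (fun h => x + h ∈ S)).image (fun h => x + h) : Finset ℕ) := by
    ext n
    simp only [Set.mem_ofPred_eq, Finset.coe_image, Finset.coe_filter, Finset.mem_Icc, Set.mem_image]
    constructor
    · rintro ⟨h1, h2, h3⟩
      exact ⟨n - x, ⟨⟨by omega, by omega⟩, by rwa [show x + (n - x) = n by omega]⟩, by omega⟩
    · rintro ⟨h, ⟨⟨h1, h2⟩, h3⟩, rfl⟩
      exact ⟨by omega, by omega, h3⟩
  rw [e, Set.ncard_coe_finset, Finset.card_image_of_injective _ (fun a b hab => by simpa using hab)]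

lemma cnt_ge {S : Set ℕ} {x y : ℕ} {H : Finset ℕ} (h1 : H ⊆ Finset.Icc 1 y) (h2 : ∀ h ∈ H, x + h ∈ S) :
    H.card ≤ cnt S x y := by
  obtain ⟨H', hH', hm, hc⟩ := cnt_eq S x y
  rw [← hc]
  apply Finset.card_le_card
  intro h hh
  have := Finset.mem_Icc.1 (h1 hh)
  exact (hm h).2 ⟨this.1, this.2, h2 h hh⟩

/-- late windows contain at most `rhoStar y` elements -/
lemma cnt_le {S : Set ℕ} (Q : ℕ → ℕ) (hp : ∀ p : ℕ, p.Prime → ∀ᶠ n in atTop, p ∣ Q n)
    (hS : ∀ n ∈ S, Nat.Coprime n (Q n)) (y : ℕ) : ∀ᶠ x in atTop, cnt S x y ≤ rhoStar y := by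
  have h1 : ∀ᶠ x in atTop, ∀ p ∈ (Finset.Icc 1 y).filter Nat.Prime, ∀ n, x ≤ n → p ∣ Q n := by
    rw [Filter.eventually_all_finset]
    intro p hpp
    obtain ⟨N, hN⟩ := eventually_atTop.1 (hp p (Finset.mem_filter.1 hpp).2)
    filter_upwards [eventually_ge_atTop N] with x hx n hn
    exact hN n (hx.trans hn)
  filter_upwards [h1] with x hx
  obtain ⟨H, hH, hm, hc⟩ := cnt_eq S x y
  rw [← hc]
  refine le_rhoStar hH fun p hp => ?_
  by_cases hpy : p ≤ y
  · have h2 := hx p (Finset.mem_filter.2 ⟨Finset.mem_Icc.2 ⟨hp.one_le, hpy⟩, hp⟩)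
    refine ⟨p - x % p, fun h hh hmod => ?_⟩
    have h3 := (hm h).1 hh
    have h4 := hS _ h3.2.2
    have h5 : p ∣ x + h := by
      have hlt : x % p < p := Nat.mod_lt _ hp.pos
      have h6 : x + h ≡ x % p + (p - x % p) [MOD p] := (Nat.mod_modEq x p).symm.add hmod
      rw [show x % p + (p - x % p) = p by omega] at h6
      exact (Nat.modEq_zero_iff_dvd).1 (h6.trans (by unfold Nat.ModEq; simp))
    have h6 := h2 (x + h) (by omega)
    have h7 := Nat.dvd_gcd h5 h6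
    rw [h4] at h7
    exact hp.one_lt.ne' (Nat.dvd_one.1 h7)
  · -- a residue class is missed since there are fewer elements than classes
    have hcard : (H.image (fun h => h % p)).card < (Finset.range p).card := by
      rw [Finset.card_range]
      refine lt_of_le_of_lt Finset.card_image_le ?_
      have := Finset.card_le_card hH
      rw [Nat.card_Icc] at this
      omega
    obtain ⟨r, hr1, hr2⟩ := Finset.exists_mem_notMem_of_card_lt_card hcard
    refine ⟨r, fun h hh hmod => hr2 ?_⟩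
    rw [Finset.mem_image]
    refine ⟨h, hh, ?_⟩
    have h3 : h % p = r % p := hmod
    rw [h3, Nat.mod_eq_of_lt (Finset.mem_range.1 hr1)]

/-- the upper limit -/
lemma limsup_eq {f : ℕ → ℕ} {r : ℕ} (h1 : ∀ᶠ x in atTop, f x ≤ r) (h2 : ∃ᶠ x in atTop, f x = r) :
    limsup f atTop = r := by
  apply le_antisymm
  · exact limsup_le_of_le (by isBoundedDefault) h1
  · exact le_limsup_of_frequently_le (h2.mono fun x hx => hx.ge) (isBoundedUnder_of_eventually_le h1)

lemma LC.frequently {P : ℕ → Prop} (h : LC P) : ∃ᶠ x in atTop, P x := by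
  classical
  rw [Filter.frequently_atTop]
  intro N
  by_contra hcon
  push Not at hcon
  have h1 := h (1 / 2) (by norm_num)
  have h2 : Tendsto (fun X : ℕ => (X : ℝ) ^ (1 - (1 / 2 : ℝ))) atTop atTop :=
    (tendsto_rpow_atTop (by norm_num)).comp tendsto_natCast_atTop_atTop
  obtain ⟨X, hX1, hX2⟩ := (h1.and (h2.eventually_gt_atTop (N : ℝ))).exists
  have h3 : ((Finset.range X).filter P).card ≤ N := by
    have h4 : (Finset.range X).filter P ⊆ Finset.range N := by
      intro x hx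
      rw [Finset.mem_filter] at hx
      by_contra hc
      exact hcon x (by rw [Finset.mem_range] at hc; omega) hx.2
    simpa using Finset.card_le_card h4
  have h4 : (((Finset.range X).filter P).card : ℝ) ≤ N := by exact_mod_cast h3
  have h5 : (X : ℝ) ^ (1 - (1 / 2 : ℝ)) ≤ (((Finset.range X).filter P).card : ℝ) := by
    convert hX1
  linarith

/-- the Hardy–Littlewood function is at least `π y + α y logloglog y / log² y` -/
lemma rhoStar_ge {α : ℝ} (hα : α < 1 / 2) : ∀ᶠ y : ℕ in atTop,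
    (Nat.primeCounting y : ℝ) + α * ((y : ℝ) * Real.log (Real.log (Real.log y)) / Real.log y ^ 2) ≤ rhoStar y := by
  obtain ⟨x0, hx0⟩ := Pool.Agent.H381R2.HR.final hα
  filter_upwards [tendsto_natCast_atTop_atTop.eventually_ge_atTop x0] with y hy
  obtain ⟨S, h0, h1, h2, h3⟩ := hx0 y hy
  rw [Nat.floor_natCast] at h3
  refine h3.trans ?_
  classical
  have h4 : (S.image (fun s : ℤ => s.toNat + 1)).card = S.card := by
    apply Finset.card_image_of_injOn
    intro a ha b hb hab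
    have ha' := (h1 a ha).1
    have hb' := (h1 b hb).1
    have : a.toNat = b.toNat := by simpa using hab
    omega
  have h5 : (S.image (fun s : ℤ => s.toNat + 1)).card ≤ rhoStar y := by
    apply le_rhoStar
    · intro h hh
      rw [Finset.mem_image] at hh
      obtain ⟨s, hs, rfl⟩ := hh
      have hs1 := h1 s hs
      have hs2 : s < (y : ℤ) := by exact_mod_cast hs1.2
      rw [Finset.mem_Icc]
      omega
    · intro p hp
      obtain ⟨r, hr⟩ := h2 p hp
      refine ⟨((r + 1) % p).toNat, fun h hh hmod => ?_⟩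
      rw [Finset.mem_image] at hh
      obtain ⟨s, hs, rfl⟩ := hh
      apply hr s hs
      have hp0 : (0 : ℤ) < p := by exact_mod_cast hp.pos
      have e1 : ((((r + 1) % p).toNat : ℕ) : ℤ) = (r + 1) % p := Int.toNat_of_nonneg (Int.emod_nonneg _ hp0.ne')
      have h6 : (((s.toNat + 1 : ℕ)) : ℤ) ≡ (((r + 1) % p).toNat : ℕ) [ZMOD p] := (Int.natCast_modEq_iff).2 hmod
      rw [e1] at h6
      push_cast at h6
      rw [Int.toNat_of_nonneg (h1 s hs).1] at h6
      have h7 : s + 1 ≡ r + 1 [ZMOD p] := h6.trans (Int.mod_modEq _ _)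
      have h8 : s ≡ r [ZMOD p] := Int.ModEq.add_right_cancel' 1 h7
      exact h8.symm.dvd
  rw [← h4]
  exact_mod_cast h5

/-- the number of elements of the model -/
lemma cnt_le_sum (S : Set ℕ) [DecidablePred (· ∈ S)] (N : ℕ) :
    cnt S 0 N = ∑ n ∈ Finset.range N, (if n + 1 ∈ S then 1 else 0) := by
  unfold cnt
  rw [← Finset.card_filter]
  have e : {n : ℕ | 0 < n ∧ n ≤ 0 + N ∧ n ∈ S} =
      (((Finset.range N).filter (fun n => n + 1 ∈ S)).image (fun n => n + 1) : Finset ℕ) := by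
    ext n
    simp only [Set.mem_ofPred_eq, Finset.coe_image, Finset.coe_filter, Finset.mem_range, Set.mem_image]
    constructor
    · rintro ⟨h1, h2, h3⟩
      exact ⟨n - 1, ⟨by omega, by rwa [show n - 1 + 1 = n by omega]⟩, by omega⟩
    · rintro ⟨h, ⟨h1, h2⟩, rfl⟩
      exact ⟨by omega, by omega, h2⟩
  rw [e, Set.ncard_coe_finset, Finset.card_image_of_injective _ (fun a b hab => by simpa using hab)]

/-- the moduli -/
lemma Q_mono {R : ℕ → ℕ} (hdvd : ∀ j, R j ∣ R (j + 1)) (m n : ℕ) (h : m ≤ n) :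
    R (Nat.log 2 m) ∣ R (Nat.log 2 n) := by
  have h1 : ∀ i j : ℕ, i ≤ j → R i ∣ R j := fun i j hij => by
    induction j, hij using Nat.le_induction with
    | base => exact dvd_rfl
    | succ j _ ih => exact ih.trans (hdvd j)
  exact h1 _ _ (Nat.log_mono_right h)

lemma Q_growth {R : ℕ → ℕ} (hR : ∀ j, 0 < R j)
    (hg : Tendsto (fun j : ℕ => Real.log (R j) / j) atTop (𝓝 0)) (ε : ℝ) (hε : 0 < ε) :
    ∀ᶠ n : ℕ in atTop, (R (Nat.log 2 n) : ℝ) ≤ (n : ℝ) ^ ε := by
  have hl2 : 0 < Real.log 2 := Real.log_pos (by norm_num)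
  have h1 := hg.eventually_lt_const (show (0 : ℝ) < ε * Real.log 2 by positivity)
  have hlog : Tendsto (fun n : ℕ => Nat.log 2 n) atTop atTop := by
    rw [tendsto_atTop_atTop]
    intro b
    exact ⟨2 ^ b, fun n hn => Nat.le_log_of_pow_le (by norm_num) hn⟩
  filter_upwards [hlog.eventually h1, eventually_ge_atTop 2] with n hn hn2
  have hJ : 0 < Nat.log 2 n := Nat.log_pos (by norm_num) hn2
  have hJ' : (0 : ℝ) < (Nat.log 2 n : ℕ) := by exact_mod_cast hJ
  rw [div_lt_iff₀ hJ'] at hn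
  have hR' : (0 : ℝ) < R (Nat.log 2 n) := by exact_mod_cast hR _
  have hn0 : (0 : ℝ) < n := by exact_mod_cast (by omega : 0 < n)
  rw [← Real.log_le_log_iff hR' (Real.rpow_pos_of_pos hn0 _), Real.log_rpow hn0]
  have h3 : (Nat.log 2 n : ℕ) * Real.log 2 ≤ Real.log n := by
    rw [← Real.log_pow]
    exact Real.log_le_log (by positivity) (by exact_mod_cast Nat.pow_log_le_self 2 (by omega))
  nlinarith

lemma R_growth {R : ℕ → ℕ} (hR : ∀ j, 0 < R j)
    (hg : Tendsto (fun j : ℕ => Real.log (R j) / j) atTop (𝓝 0)) :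
    ∀ᶠ j : ℕ in atTop, (R j : ℝ) * j ≤ 2 ^ j := by
  have hl2 : 0 < Real.log 2 := Real.log_pos (by norm_num)
  have h1 := hg.eventually_lt_const (show (0 : ℝ) < Real.log 2 / 2 by positivity)
  have h2 := tendsto_natCast_atTop_atTop.eventually (Real.isLittleO_log_id_atTop.def (show (0 : ℝ) < Real.log 2 / 2 by positivity))
  filter_upwards [h1, h2, eventually_ge_atTop 1] with j hj hj2 hj1
  have hj0 : (0 : ℝ) < j := by exact_mod_cast hj1
  have hj1' : (1 : ℝ) ≤ j := by exact_mod_cast hj1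
  rw [div_lt_iff₀ hj0] at hj
  rw [Real.norm_of_nonneg (Real.log_nonneg hj1'), id, Real.norm_of_nonneg hj0.le] at hj2
  have hR' : (0 : ℝ) < R j := by exact_mod_cast hR j
  rw [← Real.log_le_log_iff (by positivity) (by positivity), Real.log_mul hR'.ne' hj0.ne', Real.log_pow]
  linarith

/-- the conditional probabilities of impossible events vanish -/
lemma dens_zero (A : ℕ → Set Ω) : ∀ᵐ ω ∂μ, ∀ n, A (n + 1) = ∅ → dens μ ℱ A n ω = 0 := by
  rw [ae_all_iff]
  intro n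
  by_cases h : A (n + 1) = ∅
  · have e : dens μ ℱ A n = 0 := by
      unfold dens
      rw [h, Set.indicator_empty]
      exact condExp_zero
    refine Eventually.of_forall fun ω _ => ?_
    rw [e]
    rfl
  · exact Eventually.of_forall fun ω hω => absurd hω h

/-- the number of elements of the model has second order accuracy -/
lemma count_upper (hA : ∀ n, MeasurableSet[ℱ n] (A n)) {R : ℕ → ℕ} (hR : ∀ j, 0 < R j)
    (hg : Tendsto (fun j : ℕ => Real.log (R j) / j) atTop (𝓝 0))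
    (hcop : ∀ n, ¬ Nat.Coprime n (R (Nat.log 2 n)) → A n = ∅)
    (hd : ∀ᵐ ω ∂μ, ∃ C : ℝ, ∀ᶠ n : ℕ in atTop, Nat.Coprime (n + 1) (R (Nat.log 2 (n + 1))) →
      |dens μ ℱ A n ω * Real.log ((n : ℝ) + 1) *
        ((Nat.totient (R (Nat.log 2 (n + 1))) : ℝ) / R (Nat.log 2 (n + 1))) - 1| ≤ C / Real.log ((n : ℝ) + 1)) :
    ∀ᵐ ω ∂μ, ∃ C' : ℝ, ∀ᶠ N : ℕ in atTop, (cnt {n | ω ∈ A n} 0 N : ℝ) ≤
      (N : ℝ) / Real.log N + C' * ((N : ℝ) / Real.log N ^ 2) := by
  classical
  filter_upwards [lln (μ := μ) hA, hd, dens_zero (μ := μ) (ℱ := ℱ) A, DD'_ae (μ := μ) hA] with ω h1 h2 h3 h4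
  obtain ⟨C, hC⟩ := h2
  obtain ⟨n0, hn0⟩ := eventually_atTop.1 hC
  set d : ℕ → ℝ := fun m => if m = 0 then 0 else dens μ ℱ A (m - 1) ω with hdd
  have hds : ∀ n, d (n + 1) = dens μ ℱ A n ω := fun n => by simp [hdd]
  have hd1 : ∀ m, d m ≤ 1 := by
    intro m
    rcases Nat.eq_zero_or_pos m with rfl | hm
    · simp [hdd]
    · obtain ⟨n, rfl⟩ : ∃ n, m = n + 1 := ⟨m - 1, by omega⟩
      rw [hds, ← h4 n]
      exact (DD'_bd n ω).2
  obtain ⟨C', hC'⟩ := upper (d := d) hR (R_growth hR hg) hd1 (by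
    intro m hm
    rcases Nat.eq_zero_or_pos m with rfl | hm0
    · simp [hdd]
    · obtain ⟨n, rfl⟩ : ∃ n, m = n + 1 := ⟨m - 1, by omega⟩
      rw [hds]
      exact h3 n (hcop _ hm)) (C := max C 0) (le_max_right _ _) (m0 := n0 + 2) (by
    intro m hm hmc
    obtain ⟨n, rfl⟩ : ∃ n, m = n + 1 := ⟨m - 1, by omega⟩
    rw [hds]
    have h5 := (abs_le.1 (hn0 n (by omega) hmc)).2
    set q : ℕ := R (Nat.log 2 (n + 1)) with hq
    have hq0 : (0 : ℝ) < q := by exact_mod_cast hR _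
    have hφ0 : (0 : ℝ) < Nat.totient q := by exact_mod_cast Nat.totient_pos.2 (hR _)
    have hL : 0 < Real.log ((n : ℝ) + 1) := Real.log_pos (by
      have : (1 : ℝ) ≤ n := by exact_mod_cast (by omega : 1 ≤ n)
      linarith)
    have h6 : dens μ ℱ A n ω * Real.log ((n : ℝ) + 1) * ((Nat.totient q : ℝ) / q) ≤
        1 + max C 0 / Real.log ((n : ℝ) + 1) := by
      have : C / Real.log ((n : ℝ) + 1) ≤ max C 0 / Real.log ((n : ℝ) + 1) :=
        div_le_div_of_nonneg_right (le_max_left _ _) hL.le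
      linarith
    have e : dens μ ℱ A n ω = (dens μ ℱ A n ω * Real.log ((n : ℝ) + 1) * ((Nat.totient q : ℝ) / q)) *
        ((q : ℝ) / Nat.totient q * (1 / Real.log ((n : ℝ) + 1))) := by
      field_simp
    rw [e]
    push_cast
    calc _ ≤ (1 + max C 0 / Real.log ((n : ℝ) + 1)) * ((q : ℝ) / Nat.totient q * (1 / Real.log ((n : ℝ) + 1))) :=
          mul_le_mul_of_nonneg_right h6 (by positivity)
      _ = _ := by ring)
  refine ⟨C' + 1, ?_⟩
  have h6 : ∀ᶠ N : ℕ in atTop, ((N : ℝ) + 1) ^ (3 / 4 : ℝ) ≤ (N : ℝ) / Real.log N ^ 2 := by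
    have g1 := (isLittleO_log_rpow_rpow_atTop (2 : ℝ) (show (0 : ℝ) < 1 / 4 by norm_num)).bound
      (show (0 : ℝ) < 1 / 2 by norm_num)
    filter_upwards [tendsto_natCast_atTop_atTop.eventually g1, eventually_ge_atTop 3] with N hN hN3
    have hN0 : (0 : ℝ) < N := by exact_mod_cast (by omega : 0 < N)
    have hN1 : (1 : ℝ) ≤ N := by exact_mod_cast (by omega : 1 ≤ N)
    have hL : 0 < Real.log N := Real.log_pos (by exact_mod_cast (by omega : 1 < N))
    rw [Real.norm_eq_abs, Real.norm_eq_abs, abs_of_nonneg (Real.rpow_nonneg hL.le _),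
      abs_of_nonneg (Real.rpow_nonneg hN0.le _), Real.rpow_two] at hN
    rw [le_div_iff₀ (by positivity)]
    have g2 : ((N : ℝ) + 1) ^ (3 / 4 : ℝ) ≤ 2 * (N : ℝ) ^ (3 / 4 : ℝ) := by
      calc ((N : ℝ) + 1) ^ (3 / 4 : ℝ) ≤ (2 * (N : ℝ)) ^ (3 / 4 : ℝ) :=
            Real.rpow_le_rpow (by positivity) (by linarith) (by norm_num)
        _ = (2 : ℝ) ^ (3 / 4 : ℝ) * (N : ℝ) ^ (3 / 4 : ℝ) := Real.mul_rpow (by norm_num) hN0.le
        _ ≤ 2 * (N : ℝ) ^ (3 / 4 : ℝ) := by
            apply mul_le_mul_of_nonneg_right _ (by positivity)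
            calc (2 : ℝ) ^ (3 / 4 : ℝ) ≤ (2 : ℝ) ^ (1 : ℝ) :=
                  Real.rpow_le_rpow_of_exponent_le (by norm_num) (by norm_num)
              _ = 2 := Real.rpow_one 2
    calc ((N : ℝ) + 1) ^ (3 / 4 : ℝ) * Real.log N ^ 2 ≤ (2 * (N : ℝ) ^ (3 / 4 : ℝ)) * (1 / 2 * (N : ℝ) ^ (1 / 4 : ℝ)) :=
          mul_le_mul g2 hN (by positivity) (by positivity)
      _ = (N : ℝ) ^ (3 / 4 : ℝ) * (N : ℝ) ^ (1 / 4 : ℝ) := by ring
      _ = N := by rw [← Real.rpow_add hN0]; norm_num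
  filter_upwards [hC', h6, h1.eventually_lt_const (show (0 : ℝ) < 1 by norm_num)] with N g1 g2 g3
  rw [div_lt_one (by positivity), Finset.sum_sub_distrib] at g3
  have e1 : (cnt {n | ω ∈ A n} 0 N : ℝ) = ∑ n ∈ Finset.range N, J1 A (n + 1) ω := by
    rw [cnt_le_sum]
    push_cast
    refine Finset.sum_congr rfl fun n _ => ?_
    unfold J1
    by_cases ha : ω ∈ A (n + 1)
    · rw [if_pos (show n + 1 ∈ {n | ω ∈ A n} from ha), indicator_of_mem ha]
    · rw [if_neg (show ¬ n + 1 ∈ {n | ω ∈ A n} from ha), indicator_of_notMem ha]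
  have e2 : ∑ m ∈ Finset.range (N + 1), d m = ∑ n ∈ Finset.range N, dens μ ℱ A n ω := by
    rw [Finset.sum_range_succ']
    have : d 0 = 0 := by simp [hdd]
    rw [this, add_zero]
    exact Finset.sum_congr rfl fun n _ => hds n
  rw [e1]
  rw [e2] at g1
  have e3 : (C' + 1) * ((N : ℝ) / Real.log N ^ 2) = C' * ((N : ℝ) / Real.log N ^ 2) + (N : ℝ) / Real.log N ^ 2 := by ring
  rw [e3]
  linarith

end Pool.Agent.N732.CG
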